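import Mathlib
import Pool.Agent.H262.FK5

set_option autoImplicit false

/-!
Bounded subsets of Lipschitz free `p`-spaces failing Kalton's property contain `ℓ_p`-sequences.
-/

namespace Pool.Agent.Results.MP_1a7c10_an.KaltonLp

open Pool.Agent.H262.FreeP

/-- Lipschitz free `p`-spaces in the sense of `IsFreePSpace` exist, so that `result` below is not
vacuous. -/
theorem exists_space (𝕜 : Type) [RCLike 𝕜] (p : ℝ) (hp : 0 < p) (hp1 : p < 1)
    (M : Type) [MetricSpace M] (o : M) :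
    ∃ (F : Type) (_ : AddCommGroup F) (_ : Module 𝕜 F) (N : F → ℝ) (δ : M → F),
      IsFreePSpace 𝕜 p M o F N δ :=
  Pool.Agent.H262.FP.exists_free hp hp1.le o

/-- Let `0 < p < 1`, let `M` be a metric space (bounded or not), and let `W ⊆ F_p(M)` be a bounded
set that fails Kalton's property. Then `W` contains a sequence equivalent to the canonical basis of
`ℓ_p`. -/
theorem result (𝕜 : Type) [RCLike 𝕜] (p : ℝ) (hp : 0 < p) (hp1 : p < 1)
    (M : Type) [MetricSpace M] (o : M) (F : Type) [AddCommGroup F] [Module 𝕜 F]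
    (N : F → ℝ) (δ : M → F) (hF : IsFreePSpace 𝕜 p M o F N δ)
    (W : Set F) (B : ℝ) (hB : ∀ x ∈ W, N x ≤ B) (hW : ¬ KaltonProperty 𝕜 N δ W) :
    ∃ x : ℕ → F, (∀ n, x n ∈ W) ∧ EquivLp 𝕜 p N x :=
  Pool.Agent.H262.FP.kalton hp hp1 hF hB hW

end Pool.Agent.Results.MP_1a7c10_an.KaltonLp
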